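import Pool.Agent.H89LinF.Three

set_option autoImplicit false

namespace Pool.Agent.Results.MP_e0930a_co.AtMostThree

open Pool.Agent.H89LinF

/-- A linear forest all of whose components have at most three vertices is special super
edge-magic if and only if it is none of `2k P_2`, `P_3 ∪ (2k - 1) P_2` (`k ≥ 1`) and `2 P_3`. -/
theorem result {m : ℕ} (n : Fin m → ℕ) (hn : ∀ i, 1 ≤ n i ∧ n i ≤ 3) :
    SpecialSEM (linForest n) ↔
      ¬ (num n 1 = 0 ∧ ((num n 3 = 0 ∧ 2 ≤ num n 2 ∧ Even (num n 2)) ∨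
        (num n 3 = 1 ∧ Odd (num n 2)) ∨ (num n 3 = 2 ∧ num n 2 = 0))) :=
  three_main n hn

end Pool.Agent.Results.MP_e0930a_co.AtMostThree
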