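import Pool.Agent.H89LinF.Large3

set_option autoImplicit false

namespace Pool.Agent.Results.MP_e0930a_co.LargePath

open Pool.Agent.H89LinF

/-- Let `n_0, ..., n_{r-1} ≥ 1` and `n_i ≤ 3 ^ i * M`. For all
`N ≥ 3 ^ (r + 1) * (M + 1) + ∑ i, 3 ^ (r - i) * (n_i + 1)` and all `s ≥ 0` the linear forest
`P_N ∪ P_{n_0} ∪ ... ∪ P_{n_{r-1}} ∪ s K_1` is special super edge-magic. -/
theorem result {r : ℕ} (n : Fin r → ℕ) (hn : ∀ i, 1 ≤ n i) {M : ℕ}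
    (hM : ∀ i : Fin r, n i ≤ 3 ^ (i : ℕ) * M) {N : ℕ}
    (hN : 3 ^ (r + 1) * (M + 1) + ∑ i : Fin r, 3 ^ (r - (i : ℕ)) * (n i + 1) ≤ N) (s : ℕ) :
    SpecialSEM (linForest
      (Sum.elim (Fin.cons N n : Fin (r + 1) → ℕ) (fun _ : Fin s => 1))) :=
  large3 n hn hM hN s

end Pool.Agent.Results.MP_e0930a_co.LargePath
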