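import Pool.Agent.H89LinF.Many

set_option autoImplicit false

namespace Pool.Agent.Results.MP_e0930a_co.ManyIsolated

open Pool.Agent.H89LinF

/-- Let `F = P_{n_1} ∪ ... ∪ P_{n_m}` be a linear forest with `P` vertices and `K` edges. For all
`N ≥ P + 3` and `s ≥ K + 1` the linear forest `P_N ∪ F ∪ s K_1` is special super edge-magic. -/
theorem result {m : ℕ} (n : Fin m → ℕ) (hn : ∀ i, 1 ≤ n i) {N s : ℕ}
    (hN : ∑ i, n i + 3 ≤ N) (hs : ∑ i, (n i - 1) + 1 ≤ s) :
    SpecialSEM (linForest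
      (Sum.elim (Fin.cons N n : Fin (m + 1) → ℕ) (fun _ : Fin s => 1))) :=
  many n hn hN hs

end Pool.Agent.Results.MP_e0930a_co.ManyIsolated
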