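import Pool.Agent.H89LinF.Near2

set_option autoImplicit false

namespace Pool.Agent.Results.MP_e0930a_co.NearlyEqual

open Pool.Agent.H89LinF

/-- Let `m` be odd, `k ≥ 1`, and let each of `n_1, ..., n_m` be `k` or `k + 1`. For every `s ≥ 0`
the linear forest `P_{n_1} ∪ ... ∪ P_{n_m} ∪ s K_1` is special super edge-magic. -/
theorem result {m : ℕ} (hm : Odd m) (k : ℕ) (hk : 1 ≤ k) (n : Fin m → ℕ)
    (hn : ∀ i, n i = k ∨ n i = k + 1) (s : ℕ) :
    SpecialSEM (linForest (Sum.elim n (fun _ : Fin s => 1))) :=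
  near hm k hk n hn s

end Pool.Agent.Results.MP_e0930a_co.NearlyEqual
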